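import Pool.Agent.Helper4.S7.StD3

/-!
# Project W7: module STA

A function whose classes `0` and `3` have smaller degree is `-(a - α a)` up to lower degree.
-/

set_option autoImplicit false

namespace Pool.Agent.Helper66.S7

open Pool.Agent.Helper4.S7 Pool.Agent.Helper84.S7 Pool.Agent.Helper52.S7 Pool.Agent.Helper76.S7

private theorem om4 : ((om6 4 : ℤ) : ZMod 7) = 2 := by
  have h : om6 4 = -19 := rfl
  rw [h]
  decide

theorem hSta (hl : S7Low0) (_hn : S7Nfa) (h1 : S7Lw1) (hj : S7Pj) : S7Sta := by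
  intro r s e E hE h0 h3
  obtain ⟨-, -, -, -, hmono, -⟩ := hl r s
  obtain ⟨hp0, hsum, -, hW, -⟩ := hj r s
  obtain ⟨-, hα⟩ := h1 r s 2 (-1) 1 (-3) (by norm_num) (by norm_num)
  have h4 : om6 4 = -19 := rfl
  obtain ⟨hα1, -⟩ := hα 4 (by rw [h4]; norm_num)
  have hP : ∀ c : ℕ, pj c E ∈ Wd7 e := fun c => by
    have := hp0 c e E hE
    rwa [sub_zero] at this
  have hK : ∀ c : ℕ, op7 2 (-1) 1 (-3) (pj c E) - (2 : ZMod 7) ^ c • pj c E ∈ Wd7 (e - 1) := fun c => by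
    have a1 := hα1 e (pj c E) (hP c)
    have a2 := hmono (e - 9) (e - 1) (by linarith) ((hW c 4).2 e E hE)
    have a3 := Submodule.add_mem _ a1 a2
    rw [LinearMap.sub_apply, LinearMap.sub_apply, Module.End.mul_apply, LinearMap.smul_apply] at a3
    have hc : ((((om6 4) ^ c : ℤ)) : ZMod 7) = (2 : ZMod 7) ^ c := by
      rw [Int.cast_pow, om4]
    rw [hc] at a3
    have e1 : op7 2 (-1) 1 (-3) (pj c E) - oW 4 (pj c E) + (oW 4 (pj c E) - (2 : ZMod 7) ^ c • pj c E)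
        = op7 2 (-1) 1 (-3) (pj c E) - (2 : ZMod 7) ^ c • pj c E := by abel
    rw [e1] at a3
    exact a3
  have hEs : E = pj 0 E + pj 1 E + pj 2 E + pj 3 E + pj 4 E + pj 5 E := by
    have h := congrArg (fun O : Module.End (ZMod 7) (Fn7 (7 ^ r) (7 ^ s)) => O E) hsum
    simp only [Finset.sum_range_succ, Finset.sum_range_zero, zero_add, LinearMap.add_apply, Module.End.one_apply] at h
    exact h.symm
  refine ⟨pj 1 E + (5 : ZMod 7) • pj 2 E + pj 4 E + (5 : ZMod 7) • pj 5 E, ?_, ?_⟩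
  · exact Submodule.add_mem _ (Submodule.add_mem _ (Submodule.add_mem _ (hP 1) (Submodule.smul_mem _ _ (hP 2))) (hP 4))
      (Submodule.smul_mem _ _ (hP 5))
  · have key : E + ((pj 1 E + (5 : ZMod 7) • pj 2 E + pj 4 E + (5 : ZMod 7) • pj 5 E) -
        op7 2 (-1) 1 (-3) (pj 1 E + (5 : ZMod 7) • pj 2 E + pj 4 E + (5 : ZMod 7) • pj 5 E)) =
        pj 0 E + pj 3 E - (op7 2 (-1) 1 (-3) (pj 1 E) - (2 : ZMod 7) ^ 1 • pj 1 E)
          - (5 : ZMod 7) • (op7 2 (-1) 1 (-3) (pj 2 E) - (2 : ZMod 7) ^ 2 • pj 2 E)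
          - (op7 2 (-1) 1 (-3) (pj 4 E) - (2 : ZMod 7) ^ 4 • pj 4 E)
          - (5 : ZMod 7) • (op7 2 (-1) 1 (-3) (pj 5 E) - (2 : ZMod 7) ^ 5 • pj 5 E) := by
      simp only [map_add, map_smul]
      generalize hA1 : op7 2 (-1) 1 (-3) (pj 1 E) = A1
      generalize hA2 : op7 2 (-1) 1 (-3) (pj 2 E) = A2
      generalize hA4 : op7 2 (-1) 1 (-3) (pj 4 E) = A4
      generalize hA5 : op7 2 (-1) 1 (-3) (pj 5 E) = A5
      clear hA1 hA2 hA4 hA5 hK hP h0 h3
      generalize hP0 : pj 0 E = P0 at hEs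
      generalize hP1 : pj 1 E = P1 at hEs
      generalize hP2 : pj 2 E = P2 at hEs
      generalize hP3 : pj 3 E = P3 at hEs
      generalize hP4 : pj 4 E = P4 at hEs
      generalize hP5 : pj 5 E = P5 at hEs
      rw [hEs]
      have c1 : (2 : ZMod 7) ^ 1 = 2 := by decide
      have c2 : (2 : ZMod 7) ^ 2 = 4 := by decide
      have c4 : (2 : ZMod 7) ^ 4 = 2 := by decide
      have c5 : (2 : ZMod 7) ^ 5 = 4 := by decide
      rw [c1, c2, c4, c5]
      funext x y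
      simp only [Pi.add_apply, Pi.sub_apply, Pi.smul_apply, smul_eq_mul]
      have h7 : (7 : ZMod 7) = 0 := by decide
      linear_combination (-(2 * P2 x y) - 2 * P5 x y) * h7
    rw [key]
    refine Submodule.sub_mem _ (Submodule.sub_mem _ (Submodule.sub_mem _ (Submodule.sub_mem _
      (Submodule.add_mem _ h0 h3) (hK 1)) (Submodule.smul_mem _ _ (hK 2))) (hK 4)) (Submodule.smul_mem _ _ (hK 5))

end Pool.Agent.Helper66.S7
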